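import Mathlib
import Pool.Agent.V114.FoxFree

/-!
A Hanna Neumann-type inequality for algebraic submodules of free modules over
free group algebras fails, over every field.
-/

namespace Pool.Agent.Results.MP_6883a6_al.HannaNeumannFails

open MonoidAlgebra Pool.Agent.V114.FoxFree

/-- `HasRank R N n`: the right `R`-module `N` is free with a basis of `n` elements. -/
def HasRank (R : Type*) [Ring R] (N : Type*) [AddCommGroup N] [Module Rᵐᵒᵖ N] (n : ℕ) : Prop :=
  Nonempty (Module.Basis (Fin n) Rᵐᵒᵖ N)

/-- A right submodule of `R^d` is algebraic if the only free direct summand of `R^d`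
that contains it is `R^d` itself. -/
def IsAlgebraicSub {R : Type*} [Ring R] {d : ℕ} (M : Submodule Rᵐᵒᵖ (Fin d → R)) : Prop :=
  ∀ N : Submodule Rᵐᵒᵖ (Fin d → R), (∃ N' : Submodule Rᵐᵒᵖ (Fin d → R), IsCompl N N') →
    Module.Free Rᵐᵒᵖ N → M ≤ N → N = ⊤

/-- The intersection of a right submodule `M` of `K[G]^d` with `K[H]^d`, as a right
`K[H]`-submodule of `K[H]^d`; `K[H]` is identified with its image in `K[G]`. -/
noncomputable def interSub {K : Type*} [Field K] {G : Type*} [Group G] (H : Subgroup G) {d : ℕ}
    (M : Submodule (MonoidAlgebra K G)ᵐᵒᵖ (Fin d → MonoidAlgebra K G)) :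
    Submodule (MonoidAlgebra K H)ᵐᵒᵖ (Fin d → MonoidAlgebra K H) where
  carrier := {w | (fun i => MonoidAlgebra.mapDomainRingHom K H.subtype (w i)) ∈ M}
  add_mem' := by
    intro v w hv hw
    have := M.add_mem hv hw
    simp only [Set.mem_ofPred_eq]
    convert this using 1
    ext1 i
    exact map_add (MonoidAlgebra.mapDomainRingHom K H.subtype) (v i) (w i)
  zero_mem' := by
    simp only [Set.mem_ofPred_eq, Pi.zero_apply, map_zero]
    exact M.zero_mem
  smul_mem' := by
    intro c w hw
    have := M.smul_mem (MulOpposite.op (MonoidAlgebra.mapDomainRingHom K H.subtype c.unop)) hw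
    simp only [Set.mem_ofPred_eq]
    convert this using 1
    ext1 i
    exact map_mul (MonoidAlgebra.mapDomainRingHom K H.subtype) (w i) c.unop

section rank

variable {R : Type*} [Ring R]

/-- right regular module -/
noncomputable def opEquiv : R ≃ₗ[Rᵐᵒᵖ] Rᵐᵒᵖ where
  toFun := MulOpposite.op
  invFun := MulOpposite.unop
  map_add' _ _ := rfl
  map_smul' _ _ := rfl
  left_inv _ := rfl
  right_inv _ := rfl

lemma hasRank_of_equiv {κ : Type*} [Fintype κ] {N : Type*} [AddCommGroup N] [Module Rᵐᵒᵖ N]
    (e : (κ → R) ≃ₗ[Rᵐᵒᵖ] N) {n : ℕ} (hn : Fintype.card κ = n) : HasRank R N n := by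
  have b : Module.Basis κ Rᵐᵒᵖ N :=
    Module.Basis.ofEquivFun (e.symm.trans (LinearEquiv.piCongrRight fun _ => opEquiv))
  exact ⟨b.reindex (Fintype.equivFinOfCardEq hn)⟩

end rank

section group

/-- the free group on two letters -/
abbrev F2 := FreeGroup (Fin 2)

/-- first generator -/
abbrev gx : F2 := FreeGroup.of 0
/-- second generator -/
abbrev gy : F2 := FreeGroup.of 1

/-- `i ↦ x^i y x^{-i}` -/
def psi (t : ℕ) : FreeGroup (Fin t) →* F2 :=
  FreeGroup.lift (fun i : Fin t => gx ^ (i : ℕ) * gy * (gx ^ (i : ℕ))⁻¹)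

/-- exponent sum in `x` -/
def chi : F2 →* Multiplicative ℤ := FreeGroup.lift ![Multiplicative.ofAdd 1, 1]

/-- shift -/
def shiftHom : Multiplicative ℤ →* MulAut (FreeGroup ℤ) :=
  zpowersHom _ (FreeGroup.freeGroupCongr (Equiv.addRight (1 : ℤ)))

/-- the hom to the semidirect product -/
def theta : F2 →* (FreeGroup ℤ) ⋊[shiftHom] (Multiplicative ℤ) :=
  FreeGroup.lift ![SemidirectProduct.inr (Multiplicative.ofAdd 1),
    SemidirectProduct.inl (FreeGroup.of 0)]

lemma shiftHom_apply (i : ℕ) (j : ℤ) :
    shiftHom (Multiplicative.ofAdd (1 : ℤ) ^ i) (FreeGroup.of j) = FreeGroup.of (j + i) := by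
  induction i with
  | zero => simp
  | succ n ih =>
    rw [pow_succ', map_mul, MulAut.mul_apply, ih]
    simp [shiftHom, FreeGroup.freeGroupCongr]
    ring_nf

lemma theta_psi (t : ℕ) : theta.comp (psi t) =
    (SemidirectProduct.inl).comp (FreeGroup.map (fun i : Fin t => ((i : ℕ) : ℤ))) := by
  ext1 i
  have h1 : theta gx = SemidirectProduct.inr (Multiplicative.ofAdd 1) := by simp [theta]
  have h2 : theta gy = SemidirectProduct.inl (FreeGroup.of 0) := by simp [theta]
  simp only [MonoidHom.comp_apply, psi, FreeGroup.lift_apply_of, FreeGroup.map.of, map_mul, map_inv,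
    map_pow, h1, h2]
  rw [← map_pow, ← map_inv, ← SemidirectProduct.inl_aut, shiftHom_apply, zero_add]

lemma psi_injective (t : ℕ) : Function.Injective (psi t) := by
  have h : Function.Injective (theta.comp (psi t)) := by
    rw [theta_psi, MonoidHom.coe_comp]
    refine Function.Injective.comp SemidirectProduct.inl_injective ?_
    apply FreeGroup.map_injective
    intro a b hab
    simp only [Nat.cast_inj] at hab
    exact Fin.ext hab
  rw [MonoidHom.coe_comp] at h
  exact Function.Injective.of_comp h

lemma psi_range_le (t : ℕ) : (psi t).range ≤ chi.ker := by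
  rintro g ⟨w, rfl⟩
  rw [MonoidHom.mem_ker, ← MonoidHom.comp_apply]
  have : chi.comp (psi t) = 1 := by
    ext1 i
    simp [psi]
    simp [chi]
  rw [this]; rfl

/-- The free basis of the subgroup. -/
noncomputable def basisH (t : ℕ) : FreeGroupBasis (Fin t) (psi t).range :=
  FreeGroupBasis.ofRepr (MonoidHom.ofInjective (psi_injective t)).symm

end group

section alg

variable {K : Type*} [Field K]

/-- If `(x - 1) * a` is supported on elements of `x`-exponent zero then `a = 0`. -/
lemma eq_zero_of_supp (a : MonoidAlgebra K F2)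
    (h : ∀ g : F2, chi g ≠ 1 → ((of K F2 gx - 1) * a).coeff g = 0) : a = 0 := by
  classical
  by_contra ha
  have hne : a.coeff.support.Nonempty := by
    rw [Finsupp.support_nonempty_iff]
    simpa using ha
  have hcoeff : ∀ g, ((of K F2 gx - 1) * a).coeff g = a.coeff (gx⁻¹ * g) - a.coeff g := by
    intro g
    rw [sub_mul, one_mul]
    have h1 : (of K F2 gx * a).coeff g = a.coeff (gx⁻¹ * g) := by
      rw [of_apply, coeff_single_mul_eq_mul_coeff (gx⁻¹ * g), one_mul]
      intro m' _
      constructor
      · rintro rfl; group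
      · rintro rfl; group
    have h2 : (of K F2 gx * a - a).coeff g = (of K F2 gx * a).coeff g - a.coeff g := by
      simp [sub_eq_add_neg]
    rw [h2, h1]
  have chix : chi gx = Multiplicative.ofAdd 1 := by simp [chi]
  -- maximal element
  obtain ⟨g, hg, hmax⟩ := a.coeff.support.exists_max_image (fun g => (chi g).toAdd) hne
  obtain ⟨g', hg', hmin⟩ := a.coeff.support.exists_min_image (fun g => (chi g).toAdd) hne
  have e1 : chi (gx * g) = 1 := by
    by_contra hc
    have := h _ hc
    rw [hcoeff, inv_mul_cancel_left] at this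
    have h0 : a.coeff (gx * g) = 0 := by
      by_contra hc2
      have := hmax (gx * g) (by simpa using hc2)
      simp [map_mul, chix] at this
    rw [h0, sub_zero] at this
    exact (Finsupp.mem_support_iff.mp hg) this
  have e2 : chi g' = 1 := by
    by_contra hc
    have := h _ hc
    rw [hcoeff] at this
    have h0 : a.coeff (gx⁻¹ * g') = 0 := by
      by_contra hc2
      have := hmin (gx⁻¹ * g') (by simpa using hc2)
      simp [map_mul, chix] at this
    rw [h0, zero_sub, neg_eq_zero] at this
    exact (Finsupp.mem_support_iff.mp hg') this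
  have h3 := hmax g' hg'
  rw [map_mul, chix] at e1
  have e3 : (chi g).toAdd = -1 := by
    have := congrArg Multiplicative.toAdd e1
    simp at this
    omega
  simp only [e2, e3, toAdd_one] at h3
  omega

lemma coeff_map_eq_zero {G : Type*} [Group G] (H : Subgroup G) (w : MonoidAlgebra K H) (g : G)
    (hg : g ∉ H) : (MonoidAlgebra.mapDomainRingHom K H.subtype w).coeff g = 0 := by
  have : (MonoidAlgebra.mapDomainRingHom K H.subtype w).coeff =
      Finsupp.mapDomain H.subtype w.coeff := rfl
  rw [this]
  apply Finsupp.mapDomain_of_notMem_range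
  simpa using hg

lemma map_injective {G : Type*} [Group G] (H : Subgroup G) :
    Function.Injective (MonoidAlgebra.mapDomainRingHom K H.subtype) :=
  MonoidAlgebra.mapDomain_injective Subtype.coe_injective

lemma aug_map {G : Type*} [Group G] (H : Subgroup G) (w : MonoidAlgebra K H) :
    aug K G (MonoidAlgebra.mapDomainRingHom K H.subtype w) = aug K H w := by
  induction w using MonoidAlgebra.induction_linear with
  | zero => simp
  | add u v hu hv => rw [map_add, map_add, map_add, hu, hv]
  | single g r =>
    have : MonoidAlgebra.mapDomainRingHom K H.subtype (single g r) = single (g : G) r := by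
      simp
    rw [this, aug_single, aug_single]

/-- if `(x-1)^n a`, with `n ≥ 1`, comes from `K[H]`, `H` of exponent zero, then `a = 0` -/
lemma cancel_pow (a : MonoidAlgebra K F2) : ∀ n : ℕ, (of K F2 gx - 1) ^ n * a = 0 → a = 0 := by
  intro n
  induction n with
  | zero => intro h; simpa using h
  | succ n ih =>
    intro h
    apply ih
    apply eq_zero_of_supp
    intro g _
    rw [← mul_assoc, ← pow_succ', h]
    simp

lemma eq_zero_of_map (H : Subgroup F2) (hH : H ≤ chi.ker) (a : MonoidAlgebra K F2) (n : ℕ)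
    (w : MonoidAlgebra K H)
    (h : (of K F2 gx - 1) ^ (n + 1) * a = MonoidAlgebra.mapDomainRingHom K H.subtype w) :
    a = 0 := by
  apply cancel_pow a n
  apply eq_zero_of_supp
  intro g hg
  rw [← mul_assoc, ← pow_succ', h]
  apply coeff_map_eq_zero
  intro hc
  exact hg (hH hc)

/-- the left independent family -/
noncomputable def uu (K : Type*) [Field K] (n i : ℕ) : MonoidAlgebra K F2 :=
  if i < n then (of K F2 gy - 1) * (of K F2 gx - 1) ^ i else (of K F2 gx - 1) ^ n

/-- the standard basis of the free group -/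
abbrev bF : FreeGroupBasis (Fin 2) F2 := FreeGroupBasis.ofFreeGroup (Fin 2)

lemma bF_zero : bF 0 = gx := rfl
lemma bF_one : bF 1 = gy := rfl

lemma left2 (p q : MonoidAlgebra K F2) (h : p * (of K F2 gx - 1) + q * (of K F2 gy - 1) = 0) :
    p = 0 ∧ q = 0 := by
  have := left_indep (K := K) bF ![p, q] (by
    rw [Fin.sum_univ_two, bF_zero, bF_one]
    simpa using h)
  exact ⟨this 0, this 1⟩

lemma uu_indep (n : ℕ) : ∀ (p : ℕ → MonoidAlgebra K F2) (q : MonoidAlgebra K F2),
    ∑ i ∈ Finset.range n, p i * ((of K F2 gy - 1) * (of K F2 gx - 1) ^ i) +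
      q * (of K F2 gx - 1) ^ n = 0 → q = 0 ∧ ∀ i < n, p i = 0 := by
  induction n with
  | zero =>
    intro p q h
    simp at h
    exact ⟨h, by omega⟩
  | succ n ih =>
    intro p q h
    rw [Finset.sum_range_succ'] at h
    have h2 : (∑ i ∈ Finset.range n, p (i + 1) * ((of K F2 gy - 1) * (of K F2 gx - 1) ^ i) +
      q * (of K F2 gx - 1) ^ n) * (of K F2 gx - 1) + p 0 * (of K F2 gy - 1) = 0 := by
      rw [← h, add_mul, Finset.sum_mul]
      simp only [pow_succ, pow_zero, mul_one, mul_assoc]
      abel
    obtain ⟨h3, h4⟩ := left2 _ _ h2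
    obtain ⟨h5, h6⟩ := ih _ _ h3
    refine ⟨h5, ?_⟩
    intro i hi
    rcases i with _ | i
    · exact h4
    · exact h6 i (by omega)

lemma uu_indep' (n : ℕ) (p : Fin (n + 1) → MonoidAlgebra K F2)
    (h : ∑ i, p i * uu K n i = 0) : ∀ i, p i = 0 := by
  rw [Fin.sum_univ_castSucc] at h
  let P : ℕ → MonoidAlgebra K F2 := fun j => if hj : j < n + 1 then p ⟨j, hj⟩ else 0
  have h' : ∑ i ∈ Finset.range n, P i *
      ((of K F2 gy - 1) * (of K F2 gx - 1) ^ i) + p (Fin.last n) * (of K F2 gx - 1) ^ n = 0 := by
    refine Eq.trans ?_ h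
    congr 1
    · rw [← Fin.sum_univ_eq_sum_range (fun i => P i *
        ((of K F2 gy - 1) * (of K F2 gx - 1) ^ i))]
      refine Finset.sum_congr rfl fun i _ => ?_
      have hi : (i : ℕ) < n := i.2
      have hi' : (i : ℕ) < n + 1 := by omega
      simp only [uu, Fin.val_castSucc, hi, if_true, hi', dif_pos, P]
      rfl
    · simp [uu]
  obtain ⟨h1, h2⟩ := uu_indep n _ _ h'
  intro i
  induction i using Fin.lastCases with
  | last => exact h1
  | cast i =>
    have := h2 i i.2
    have hi' : (i : ℕ) < n + 1 := by omega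
    simp only [hi', dif_pos, P] at this
    exact this

/-- the map defining `M` -/
noncomputable def Phi (K : Type*) [Field K] (n : ℕ) :
    (Option (Fin (n + 1) × Fin 2) → MonoidAlgebra K F2) →ₗ[(MonoidAlgebra K F2)ᵐᵒᵖ]
      (Fin ((n + 1) + (n + 1)) → MonoidAlgebra K F2) where
  toFun c := Fin.append (fun i => uu K n i * c none)
    (fun i => ∑ j : Fin 2, (of K F2 (bF j) - 1) * c (some (i, j)))
  map_add' c d := by
    ext1 k
    induction k using Fin.addCases with
    | left i => simp [mul_add]
    | right i =>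
      simp only [Fin.append_right, Pi.add_apply, mul_add, Finset.sum_add_distrib]
  map_smul' r c := by
    ext1 k
    induction k using Fin.addCases with
    | left i => simp [MulOpposite.smul_eq_mul_unop, mul_assoc]
    | right i =>
      simp only [Fin.append_right, Pi.smul_apply, MulOpposite.smul_eq_mul_unop, RingHom.id_apply,
        Finset.sum_mul, mul_assoc]

/-- the map defining the intersection -/
noncomputable def Psi (K : Type*) [Field K] (n t : ℕ) :
    ((Fin (n + 1) × Fin t) → MonoidAlgebra K (psi t).range)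
      →ₗ[(MonoidAlgebra K (psi t).range)ᵐᵒᵖ]
      (Fin ((n + 1) + (n + 1)) → MonoidAlgebra K (psi t).range) where
  toFun c := Fin.append (fun _ => 0)
    (fun i => ∑ j : Fin t, (of K _ (basisH t j) - 1) * c (i, j))
  map_add' c d := by
    ext1 k
    induction k using Fin.addCases with
    | left i => simp
    | right i =>
      simp only [Fin.append_right, Pi.add_apply, mul_add, Finset.sum_add_distrib]
  map_smul' r c := by
    ext1 k
    induction k using Fin.addCases with
    | left i => simp
    | right i =>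
      simp only [Fin.append_right, Pi.smul_apply, MulOpposite.smul_eq_mul_unop, RingHom.id_apply,
        Finset.sum_mul, mul_assoc]

lemma Phi_left (n : ℕ) (c : Option (Fin (n + 1) × Fin 2) → MonoidAlgebra K F2) (i : Fin (n + 1)) :
    Phi K n c (Fin.castAdd _ i) = uu K n i * c none := by
  simp [Phi]

lemma Phi_right (n : ℕ) (c : Option (Fin (n + 1) × Fin 2) → MonoidAlgebra K F2) (i : Fin (n + 1)) :
    Phi K n c (Fin.natAdd _ i) = ∑ j : Fin 2, (of K F2 (bF j) - 1) * c (some (i, j)) := by
  simp only [Phi, LinearMap.coe_mk, AddHom.coe_mk, Fin.append_right]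

lemma Psi_left (n t : ℕ) (c : (Fin (n + 1) × Fin t) → MonoidAlgebra K (psi t).range)
    (i : Fin (n + 1)) : Psi K n t c (Fin.castAdd _ i) = 0 := by
  simp [Psi]

lemma Psi_right (n t : ℕ) (c : (Fin (n + 1) × Fin t) → MonoidAlgebra K (psi t).range)
    (i : Fin (n + 1)) : Psi K n t c (Fin.natAdd _ i) =
      ∑ j : Fin t, (of K _ (basisH t j) - 1) * c (i, j) := by
  simp only [Psi, LinearMap.coe_mk, AddHom.coe_mk, Fin.append_right]

lemma Phi_injective (n : ℕ) : Function.Injective (Phi K n) := by
  rw [← LinearMap.ker_eq_bot, LinearMap.ker_eq_bot']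
  intro c hc
  have h1 : c none = 0 := by
    have := congrFun hc (Fin.castAdd _ (Fin.last n))
    rw [Phi_left] at this
    simp only [uu, Fin.val_last, lt_irrefl, if_false, Pi.zero_apply] at this
    exact cancel_pow _ n this
  have h2 : ∀ i j, c (some (i, j)) = 0 := by
    intro i j
    have := congrFun hc (Fin.natAdd _ i)
    rw [Phi_right] at this
    exact right_indep bF (fun j => c (some (i, j))) this j
  ext1 k
  rcases k with _ | ⟨i, j⟩
  · exact h1
  · exact h2 i j

lemma Psi_injective (n t : ℕ) : Function.Injective (Psi K n t) := by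
  rw [← LinearMap.ker_eq_bot, LinearMap.ker_eq_bot']
  intro c hc
  ext1 ⟨i, j⟩
  have := congrFun hc (Fin.natAdd _ i)
  rw [Psi_right] at this
  exact right_indep (basisH t) (fun j => c (i, j)) this j

lemma aug_sum_eq_zero {G : Type*} [Group G] {X : Type*} [Fintype X] (b : X → G)
    (c : X → MonoidAlgebra K G) : aug K G (∑ j, (of K G (b j) - 1) * c j) = 0 := by
  simp only [map_sum, map_mul, map_sub, aug_of, map_one, sub_self, zero_mul, Finset.sum_const_zero]

lemma inter_eq (n t : ℕ) (hn : 1 ≤ n) :
    interSub (psi t).range (LinearMap.range (Phi K n)) = LinearMap.range (Psi K n t) := by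
  ext w
  constructor
  · rintro ⟨c, hc⟩
    have hc' : ∀ k, Phi K n c k = MonoidAlgebra.mapDomainRingHom K (psi t).range.subtype (w k) :=
      fun k => congrFun hc k
    have h1 : c none = 0 := by
      have := hc' (Fin.castAdd _ (Fin.last n))
      rw [Phi_left] at this
      simp only [uu, Fin.val_last, lt_irrefl, if_false] at this
      obtain ⟨n, rfl⟩ : ∃ m, n = m + 1 := ⟨n - 1, by omega⟩
      exact eq_zero_of_map _ (psi_range_le t) _ n _ this
    have h2 : ∀ i, w (Fin.castAdd _ i) = 0 := by
      intro i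
      apply map_injective (K := K) (psi t).range
      rw [← hc', Phi_left, h1, mul_zero, map_zero]
    have h3 : ∀ i : Fin (n + 1), aug K _ (w (Fin.natAdd _ i)) = 0 := by
      intro i
      rw [← aug_map, ← hc', Phi_right]
      exact aug_sum_eq_zero _ _
    choose d hd using fun i => exists_of_aug_eq_zero (basisH t) _ (h3 i)
    refine ⟨fun p => d p.1 p.2, ?_⟩
    ext1 k
    induction k using Fin.addCases with
    | left i => rw [Psi_left, h2]
    | right i => rw [Psi_right, hd i]
  · rintro ⟨c, rfl⟩
    have h3 : ∀ i : Fin (n + 1), aug K F2 (MonoidAlgebra.mapDomainRingHom K (psi t).range.subtype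
        (Psi K n t c (Fin.natAdd _ i))) = 0 := by
      intro i
      rw [aug_map, Psi_right]
      exact aug_sum_eq_zero _ _
    choose d hd using fun i => exists_of_aug_eq_zero bF _ (h3 i)
    refine ⟨fun p => match p with
      | none => 0
      | some p => d p.1 p.2, ?_⟩
    ext1 k
    induction k using Fin.addCases with
    | left i => rw [Phi_left, Psi_left, map_zero, mul_zero]
    | right i => rw [Phi_right, hd i]

lemma algebraic_range (n : ℕ) : IsAlgebraicSub (LinearMap.range (Phi K n)) := by
  classical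
  rintro N ⟨N', hNN'⟩ _ hle
  by_contra hN
  -- a nonzero projection
  have hN' : N' ≠ ⊥ := by
    rintro rfl
    exact hN (by simpa using hNN'.codisjoint)
  obtain ⟨v, hv, hv0⟩ := Submodule.exists_mem_ne_zero_of_ne_bot hN'
  obtain ⟨k, hk⟩ : ∃ k, v k ≠ 0 := by
    by_contra hcon
    push Not at hcon
    exact hv0 (funext hcon)
  let P := Submodule.projectionOnto N' N hNN'.symm
  let φ : (Fin ((n + 1) + (n + 1)) → MonoidAlgebra K F2) →ₗ[(MonoidAlgebra K F2)ᵐᵒᵖ]
      MonoidAlgebra K F2 := (LinearMap.proj k).comp (N'.subtype.comp P)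
  have hφv : φ v ≠ 0 := by
    have : P v = ⟨v, hv⟩ := Submodule.projectionOnto_apply_left hNN'.symm ⟨v, hv⟩
    simp only [φ, LinearMap.comp_apply, this]
    exact hk
  have hφN : ∀ u ∈ N, φ u = 0 := by
    intro u hu
    have : P u = 0 := Submodule.projectionOnto_apply_right hNN'.symm ⟨u, hu⟩
    simp only [φ, LinearMap.comp_apply, this, map_zero]
  -- coordinates of φ
  have hφ : ∀ u, φ u = ∑ i, φ (Pi.single i 1) * u i := by
    intro u
    have hu : u = ∑ i, MulOpposite.op (u i) • (Pi.single i 1 :
        Fin ((n + 1) + (n + 1)) → MonoidAlgebra K F2) := by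
      ext1 j
      rw [Finset.sum_apply]
      simp [Pi.single_apply]
    conv_lhs => rw [hu]
    rw [map_sum]
    refine Finset.sum_congr rfl fun i _ => ?_
    rw [map_smul]
    rfl
  have hzero : ∀ i, φ (Pi.single i 1) = 0 := by
    intro i
    induction i using Fin.addCases with
    | left i =>
      have h1 := hφN _ (hle ⟨fun p => match p with
        | none => 1
        | some _ => 0, rfl⟩)
      rw [hφ, Fin.sum_univ_add] at h1
      simp only [Phi_left, Phi_right, mul_one, mul_zero, Finset.sum_const_zero, add_zero] at h1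
      exact uu_indep' n (fun i => φ (Pi.single (Fin.castAdd _ i) 1)) h1 i
    | right i =>
      have h1 := hφN _ (hle ⟨fun p => match p with
        | none => 0
        | some p => if p = (i, 0) then 1 else 0, rfl⟩)
      rw [hφ, Fin.sum_univ_add] at h1
      simp only [Phi_left, Phi_right, mul_zero, Finset.sum_const_zero, zero_add] at h1
      rw [Finset.sum_eq_single i] at h1
      · rw [Fin.sum_univ_two, bF_zero, bF_one] at h1
        simp only [Fin.isValue, if_true, mul_one, Prod.mk.injEq, one_ne_zero, and_false, if_false,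
          mul_zero, add_zero] at h1
        have := left2 (K := K) (φ (Pi.single (Fin.natAdd (n + 1) i) 1)) 0 (by
          rw [zero_mul, add_zero]; exact h1)
        exact this.1
      · intro j _ hj
        simp [hj]
      · intro h; exact absurd (Finset.mem_univ i) h
  apply hφv
  rw [hφ]
  simp [hzero]

end alg

/-- **The inequality of Q1 fails**, over every field `K` and already for the free group of
rank two; it even fails with an arbitrary multiplicative constant and an arbitrary additive
constant inserted on the right-hand side, and with `rk M > d`. -/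
theorem result (K : Type*) [Field K] (C : ℕ) :
    ∃ (d r s t : ℕ) (H : Subgroup (FreeGroup (Fin 2)))
      (M : Submodule (MonoidAlgebra K (FreeGroup (Fin 2)))ᵐᵒᵖ
        (Fin d → MonoidAlgebra K (FreeGroup (Fin 2)))),
      1 ≤ d ∧ H.FG ∧ H ≠ ⊥ ∧ Nonempty (FreeGroupBasis (Fin t) H) ∧
      M.FG ∧ IsAlgebraicSub M ∧
      HasRank (MonoidAlgebra K (FreeGroup (Fin 2))) M r ∧
      HasRank (MonoidAlgebra K H) (interSub H M) s ∧
      d < r ∧
      (C : ℚ) * (((r : ℚ) / d - 1) * ((t : ℚ) - 1)) + C < (s : ℚ) / d - 1 := by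
  obtain ⟨t, ht⟩ : ∃ t, t = 2 * C + 4 := ⟨_, rfl⟩
  obtain ⟨n, hn⟩ : ∃ n, n = C * (t - 1) + 1 := ⟨_, rfl⟩
  have hr : HasRank (MonoidAlgebra K (FreeGroup (Fin 2))) (LinearMap.range (Phi K n))
      (2 * (n + 1) + 1) := by
    refine hasRank_of_equiv (LinearEquiv.ofInjective (Phi K n) (Phi_injective n)) ?_
    simp [Fintype.card_option]; ring
  refine ⟨(n + 1) + (n + 1), 2 * (n + 1) + 1, (n + 1) * t, t, (psi t).range,
    LinearMap.range (Phi K n), by omega, ?_, ?_, ⟨basisH t⟩, ?_, algebraic_range n, hr, ?_,
    by omega, ?_⟩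
  · rw [← Group.fg_iff_subgroup_fg]
    infer_instance
  · intro hbot
    have h1 : psi t (FreeGroup.of ⟨0, by omega⟩) ∈ (psi t).range := ⟨_, rfl⟩
    rw [hbot, Subgroup.mem_bot, ← map_one (psi t)] at h1
    exact FreeGroup.of_ne_one _ (psi_injective t h1)
  · obtain ⟨b⟩ := hr
    rw [← Module.Finite.iff_fg]
    exact Module.Finite.of_basis b
  · rw [inter_eq n t (by omega)]
    refine hasRank_of_equiv (LinearEquiv.ofInjective (Psi K n t) (Psi_injective n t)) ?_
    simp
  · have ht' : (t : ℚ) = 2 * C + 4 := by rw [ht]; push_cast; ring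
    have hn' : (n : ℚ) = C * ((t : ℚ) - 1) + 1 := by
      rw [hn]
      push_cast [Nat.cast_sub (show 1 ≤ t by omega)]
      ring
    have hpos : (0 : ℚ) < (n : ℚ) + 1 := by positivity
    have h1 : (((2 * (n + 1) + 1 : ℕ) : ℚ) / ((n + 1 + (n + 1) : ℕ) : ℚ) - 1) * ((t : ℚ) - 1) * C
        < 1 / 2 := by
      push_cast
      have : ((2 * ((n : ℚ) + 1) + 1) / ((n : ℚ) + 1 + ((n : ℚ) + 1)) - 1) =
          1 / (2 * ((n : ℚ) + 1)) := by
        field_simp; ring
      rw [this, div_mul_eq_mul_div, div_mul_eq_mul_div, div_lt_div_iff₀ (by positivity)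
        (by norm_num)]
      have : (1 : ℚ) * ((t : ℚ) - 1) * C = n - 1 := by rw [hn']; ring
      rw [this]
      linarith
    have h2 : (((n + 1) * t : ℕ) : ℚ) / ((n + 1 + (n + 1) : ℕ) : ℚ) - 1 = C + 1 := by
      push_cast
      rw [ht']
      field_simp
      ring
    rw [h2]
    linarith

end Pool.Agent.Results.MP_6883a6_al.HannaNeumannFails
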